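import Pool.Agent.PWJ.Chain

/-!
# PWK: chains of subgroups, with a logarithmic cost for normal steps
-/

namespace Pool.Agent.PWI

/-- `SubCost P M c`: the subgroup `M` is joined to `P` by a chain of subgroups of total cost at
most `c`, where a step `N ≤ L` costs `1` if `N` is normal in `L` with cyclic quotient,
`2 (e - 1)` if `N` has finite index `e` in `L`, and `2 R (R - 1)` if `N` is normal in `L` of
finite index `e < (8 / 7) ^ R`. -/
inductive SubCost {G : Type} [Group G] (P : Subgroup G) : Subgroup G → ℕ → Prop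
  | refl : SubCost P P 0
  | cyc {L N : Subgroup G} {c : ℕ} (hL : SubCost P L c) (hle : N ≤ L)
      (hno : (N.subgroupOf L).Normal) (hcy : ∃ t ∈ L, ∀ x ∈ L, ∃ e : ℤ, x * (t ^ e)⁻¹ ∈ N) :
      SubCost P N (c + 1)
  | idx {L N : Subgroup G} {c e : ℕ} (hL : SubCost P L c) (hle : N ≤ L) (hn : N.relIndex L ≠ 0)
      (he : 2 * (N.relIndex L - 1) ≤ e) : SubCost P N (c + e)
  | nor {L N : Subgroup G} {c e R : ℕ} (hL : SubCost P L c) (hle : N ≤ L)
      (hno : (N.subgroupOf L).Normal) (hn : N.relIndex L ≠ 0)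
      (hR : 7 ^ R * N.relIndex L < 8 ^ R) (he : 2 * R * (R - 1) ≤ e) : SubCost P N (c + e)

theorem SubCost.of_chain {G : Type} [Group G] {P M : Subgroup G} {c : ℕ}
    (h : ChainCost P M c) : SubCost P M c := by
  induction h with
  | refl => exact SubCost.refl
  | cyc _ hle hno hcy ih => exact SubCost.cyc ih hle hno hcy
  | idx _ hle hn he ih => exact SubCost.idx ih hle hn he

theorem six_pow (k : ℕ) (hk : k ≠ 0) : 7 ^ (6 * k) * 2 ^ k < 8 ^ (6 * k) := by
  have e1 : 7 ^ (6 * k) * 2 ^ k = 235298 ^ k := by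
    rw [pow_mul, ← mul_pow]; norm_num
  have e2 : 8 ^ (6 * k) = 262144 ^ k := by
    rw [pow_mul]; norm_num
  rw [e1, e2]
  exact Nat.pow_lt_pow_left (by norm_num) hk

/-- A normal subgroup of index at most `2 ^ k` costs at most `72 k ^ 2`. -/
theorem SubCost.of_index {G : Type} [Group G] (M : Subgroup G) [hM : M.Normal] (k : ℕ)
    (h0 : M.index ≠ 0) (h : M.index ≤ 2 ^ k) : SubCost ⊤ M (72 * k ^ 2) := by
  have hno : (M.subgroupOf ⊤).Normal := inferInstance
  have hrel : M.relIndex ⊤ = M.index := Subgroup.relIndex_top_right M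
  have e : ∀ a : ℕ, a = 0 + a := fun a => (Nat.zero_add a).symm
  rw [e (72 * k ^ 2)]
  rcases Nat.eq_zero_or_pos k with hk | hk
  · subst hk
    refine SubCost.nor (R := 1) SubCost.refl le_top hno (by rw [hrel]; exact h0) ?_ (by norm_num)
    rw [hrel]
    rw [pow_zero] at h
    omega
  · refine SubCost.nor (R := 6 * k) SubCost.refl le_top hno (by rw [hrel]; exact h0) ?_ ?_
    · rw [hrel]
      exact lt_of_le_of_lt (Nat.mul_le_mul_left _ h) (six_pow k hk.ne')
    · have h1 : 6 * k - 1 ≤ 6 * k := Nat.sub_le _ _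
      calc 2 * (6 * k) * (6 * k - 1) ≤ 2 * (6 * k) * (6 * k) := Nat.mul_le_mul_left _ h1
        _ = 72 * k ^ 2 := by ring

end Pool.Agent.PWI
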