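import Pool.Agent.PWK.Stage

/-!
# PWK: four consecutive good stages
-/

namespace Pool.Agent.PWI

variable {g n : ℕ} {Q : Type*} [Group Q] [Finite Q]

/-- Number of values. -/
noncomputable def vc (ψ : SG g n → Q) (T : PMod g n) (q r : ℕ) : ℕ := (VF ψ T q r).card

theorem vc_act {ψ : SG g n → Q} {T S : PMod g n} {l q c : ℕ} (hS : SuppI S l q) (hc : q ≤ c) :
    vc ψ (T * S) l c = vc ψ T l c := by
  unfold vc
  rw [VF_act (hS.mono le_rfl hc)]

theorem vc_fix {ψ : SG g n → Q} {T S : PMod g n} {l q a c : ℕ} (hS : SuppI S l q) (ha : q ≤ a) :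
    vc ψ (T * S) a c = vc ψ T a c := by
  unfold vc
  rw [VF_fix hS ha]

theorem vc_mono {ψ : SG g n → Q} {T : PMod g n} {l c c' : ℕ} (hc' : c' ≤ g) (h : c ≤ c') :
    vc ψ T l c ≤ vc ψ T l c' :=
  Finset.card_le_card (VF_mono hc' le_rfl h)

/-- Stage from `r` down to `q`, almost as many values in the interval as before it. -/
def Stuck (ψ : SG g n → Q) (T : PMod g n) (l q r : ℕ) : Prop :=
  l ≤ q ∧ q ≤ r ∧ 6 * vc ψ T l q < 7 * vc ψ T q r

/-- The number of values before does not drop much. -/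
def Good (ψ : SG g n → Q) (T : PMod g n) (l q r : ℕ) : Prop :=
  7 * vc ψ T l r < 8 * vc ψ T l q

theorem Stuck.act {ψ : SG g n → Q} {T S : PMod g n} {l q q' r : ℕ} (h : Stuck ψ T l q r)
    (hS : SuppI S l q') (hq : q' ≤ q) : Stuck ψ (T * S) l q r := by
  refine ⟨h.1, h.2.1, ?_⟩
  rw [vc_act hS hq, vc_fix hS hq]
  exact h.2.2

theorem Good.act {ψ : SG g n → Q} {T S : PMod g n} {l q q' r : ℕ} (h : Good ψ T l q r)
    (hS : SuppI S l q') (hq : q' ≤ q) (hr : q ≤ r) : Good ψ (T * S) l q r := by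
  unfold Good
  rw [vc_act hS hq, vc_act hS (hq.trans hr)]
  exact h

/-- Four consecutive good stages. -/
def FourGood (ψ : SG g n → Q) (T : PMod g n) (l r0 r1 r2 r3 r4 : ℕ) : Prop :=
  (Stuck ψ T l r1 r0 ∧ Stuck ψ T l r2 r1 ∧ Stuck ψ T l r3 r2 ∧ Stuck ψ T l r4 r3) ∧
    Good ψ T l r1 r0 ∧ Good ψ T l r2 r1 ∧ Good ψ T l r3 r2 ∧ Good ψ T l r4 r3

theorem four_good {P : Subgroup (SG g n)} {ψ : SG g n → Q} (hψ : MulOn P ψ) (l : ℕ) :
    ∀ (b : ℕ) (T : PMod g n) (r : ℕ), r ≤ g → l + 2 * b * (b - 1) ≤ r →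
    (∀ x ∈ (Wi l r : Subgroup (SG g n)), T.1 x ∈ P) → 7 ^ b * vc ψ T l r < 8 ^ b →
    ∃ (S : PMod g n) (r0 r1 r2 r3 r4 : ℕ), SuppI S l r ∧ r0 ≤ r ∧ r ≤ r4 + 2 * b * (b - 1) ∧
      FourGood ψ (T * S) l r0 r1 r2 r3 r4 := by
  intro b
  induction b with
  | zero =>
    intro T r _ _ _ h
    have : 0 < vc ψ T l r := Finset.card_pos.2 ⟨1, one_mem_VF hψ _ _ _⟩
    rw [pow_zero, pow_zero, one_mul] at h
    omega
  | succ b ih =>
    intro T r hr hlr hT hb
    have e : 2 * (b + 1) * (b + 1 - 1) = 2 * (b * b) + 2 * b := by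
      rw [Nat.add_sub_cancel]; ring
    have hroom : l + 2 * (b * b) + 2 * b ≤ r := by omega
    have hbb : b ≤ b * b := Nat.le_mul_self b
    obtain ⟨S1, q1, hS1, a1, b1, c1, d1⟩ := stage hψ T l r b hr (by omega) hT hb
    have hT1 := comp_mem hS1 hT
    have v1 : vc ψ (T * S1) l q1 ≤ vc ψ T l r := by
      rw [← vc_act (T := T) hS1 (le_refl r)]
      exact vc_mono hr b1
    obtain ⟨S2, q2, hS2, a2, b2, c2, d2⟩ := stage hψ (T * S1) l q1 b (by omega) (by omega)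
      (fun x hx => hT1 x (Wi_mono le_rfl b1 hx))
      (lt_of_le_of_lt (Nat.mul_le_mul_left _ v1) hb)
    have hT2 := comp_mem (hS2.mono le_rfl b1) hT1
    have v2 : vc ψ (T * S1 * S2) l q2 ≤ vc ψ (T * S1) l q1 := by
      rw [← vc_act (T := T * S1) hS2 (le_refl q1)]
      exact vc_mono (by omega) b2
    obtain ⟨S3, q3, hS3, a3, b3, c3, d3⟩ := stage hψ (T * S1 * S2) l q2 b (by omega) (by omega)
      (fun x hx => hT2 x (Wi_mono le_rfl (by omega) hx))
      (lt_of_le_of_lt (Nat.mul_le_mul_left _ (v2.trans v1)) hb)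
    have hT3 := comp_mem (hS3.mono le_rfl (by omega : q2 ≤ r)) hT2
    have v3 : vc ψ (T * S1 * S2 * S3) l q3 ≤ vc ψ (T * S1 * S2) l q2 := by
      rw [← vc_act (T := T * S1 * S2) hS3 (le_refl q2)]
      exact vc_mono (by omega) b3
    obtain ⟨S4, q4, hS4, a4, b4, c4, d4⟩ := stage hψ (T * S1 * S2 * S3) l q3 b (by omega)
      (by omega) (fun x hx => hT3 x (Wi_mono le_rfl (by omega) hx))
      (lt_of_le_of_lt (Nat.mul_le_mul_left _ (v3.trans (v2.trans v1))) hb)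
    have hT4 := comp_mem (hS4.mono le_rfl (by omega : q3 ≤ r)) hT3
    -- the four stages in the last marking
    have s1 : Stuck ψ (T * S1 * S2 * S3 * S4) l q1 r :=
      ((Stuck.act (T := T * S1) ⟨a1, b1, d1⟩ hS2 le_rfl).act hS3 b2).act hS4 (by omega)
    have s2 : Stuck ψ (T * S1 * S2 * S3 * S4) l q2 q1 :=
      (Stuck.act (T := T * S1 * S2) ⟨a2, b2, d2⟩ hS3 le_rfl).act hS4 (by omega)
    have s3 : Stuck ψ (T * S1 * S2 * S3 * S4) l q3 q2 :=
      Stuck.act (T := T * S1 * S2 * S3) ⟨a3, b3, d3⟩ hS4 le_rfl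
    have s4 : Stuck ψ (T * S1 * S2 * S3 * S4) l q4 q3 := ⟨a4, b4, d4⟩
    have hS : SuppI (S1 * S2 * S3 * S4) l r :=
      ((hS1.mul (hS2.mono le_rfl b1)).mul (hS3.mono le_rfl (by omega))).mul
        (hS4.mono le_rfl (by omega))
    by_cases hgood : Good ψ (T * S1 * S2 * S3 * S4) l q1 r ∧
        Good ψ (T * S1 * S2 * S3 * S4) l q2 q1 ∧ Good ψ (T * S1 * S2 * S3 * S4) l q3 q2 ∧
        Good ψ (T * S1 * S2 * S3 * S4) l q4 q3
    · exact ⟨S1 * S2 * S3 * S4, r, q1, q2, q3, q4, hS, le_rfl, by omega, ⟨s1, s2, s3, s4⟩, hgood⟩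
    · have hr' : vc ψ (T * S1 * S2 * S3 * S4) l r = vc ψ T l r :=
        vc_act (T := T) (S := S1 * S2 * S3 * S4) hS le_rfl
      have m1 : vc ψ (T * S1 * S2 * S3 * S4) l q1 ≤ vc ψ (T * S1 * S2 * S3 * S4) l r :=
        vc_mono hr b1
      have m2 : vc ψ (T * S1 * S2 * S3 * S4) l q2 ≤ vc ψ (T * S1 * S2 * S3 * S4) l q1 :=
        vc_mono (by omega) b2
      have m3 : vc ψ (T * S1 * S2 * S3 * S4) l q3 ≤ vc ψ (T * S1 * S2 * S3 * S4) l q2 :=
        vc_mono (by omega) b3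
      have m4 : vc ψ (T * S1 * S2 * S3 * S4) l q4 ≤ vc ψ (T * S1 * S2 * S3 * S4) l q3 :=
        vc_mono (by omega) b4
      have hdrop : 8 * vc ψ (T * S1 * S2 * S3 * S4) l q4 ≤ 7 * vc ψ T l r := by
        rw [← hr']
        unfold Good at hgood
        omega
      have hb' : 7 ^ b * vc ψ (T * S1 * S2 * S3 * S4) l q4 < 8 ^ b := by
        have h1 : 8 * (7 ^ b * vc ψ (T * S1 * S2 * S3 * S4) l q4) < 8 * 8 ^ b := by
          calc 8 * (7 ^ b * vc ψ (T * S1 * S2 * S3 * S4) l q4)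
              = 7 ^ b * (8 * vc ψ (T * S1 * S2 * S3 * S4) l q4) := by ring
            _ ≤ 7 ^ b * (7 * vc ψ T l r) := Nat.mul_le_mul_left _ hdrop
            _ = 7 ^ (b + 1) * vc ψ T l r := by ring
            _ < 8 ^ (b + 1) := hb
            _ = 8 * 8 ^ b := by ring
        omega
      have e' : 2 * b * (b - 1) + 2 * b = 2 * (b * b) := by
        rcases Nat.eq_zero_or_pos b with h | h
        · subst h; rfl
        · obtain ⟨c, rfl⟩ : ∃ c, b = c + 1 := ⟨b - 1, by omega⟩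
          rw [Nat.add_sub_cancel]; ring
      have hroom' : l + 2 * b * (b - 1) ≤ q4 := by omega
      obtain ⟨S5, r0, r1, r2, r3, r4, hS5, h1, h1', h2⟩ := ih (T * S1 * S2 * S3 * S4) q4 (by omega)
        hroom' (fun x hx => hT4 x (Wi_mono le_rfl (by omega) hx)) hb'
      refine ⟨S1 * S2 * S3 * S4 * S5, r0, r1, r2, r3, r4, hS.mul (hS5.mono le_rfl (by omega)),
        by omega, by omega, ?_⟩
      have e3 : T * (S1 * S2 * S3 * S4 * S5) = T * S1 * S2 * S3 * S4 * S5 := by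
        simp only [mul_assoc]
      rw [e3]
      exact h2

end Pool.Agent.PWI
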