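import Mathlib

/-!
# Three counting lemmas in a finite group

`sub_of_small`: if `1 ∈ X`, `1 ∈ Y`, `X Y ⊆ Z` and `Z` has fewer than `3 |X| / 2` and fewer than `3 |Y| / 2` elements, then
`X`, `Y` lie in a subgroup that lies in `Z`. `prod_of_large`: two subsets of a subgroup `H` with together more than `|H|`
elements have product `H`. `card_of_stuck`: if `|A ∪ t A| < (8 / 7) |A|` for all `t ∈ B`, then `|B| < (7 / 6) |A|`.
-/

set_option autoImplicit false

namespace Pool.Agent.PWI

theorem card_of_stuck {Q : Type*} [Group Q] [Finite Q] [DecidableEq Q] (A B : Finset Q)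
    (hA : A.Nonempty) (hB : B.Nonempty)
    (h : ∀ t ∈ B, 7 * (A ∪ A.image (fun x => t * x)).card < 8 * A.card) :
    6 * B.card < 7 * A.card := by
  have h1 : ∀ t ∈ B, 6 * A.card < 7 * (A.filter (fun x => t * x ∈ A)).card := by
    intro t ht
    have h2 := Finset.card_union_add_card_inter A (A.image (fun x => t * x))
    have h3 : (A.image (fun x => t * x)).card = A.card :=
      Finset.card_image_of_injective _ (mul_right_injective t)
    have h4 : (A ∩ A.image (fun x => t * x)).card ≤ (A.filter (fun x => t * x ∈ A)).card := by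
      have : A ∩ A.image (fun x => t * x) ⊆
          (A.filter (fun x => t * x ∈ A)).image (fun x => t * x) := by
        intro y hy
        rw [Finset.mem_inter, Finset.mem_image] at hy
        obtain ⟨hy, x, hx, rfl⟩ := hy
        exact Finset.mem_image_of_mem _ (Finset.mem_filter.2 ⟨hx, hy⟩)
      exact (Finset.card_le_card this).trans Finset.card_image_le
    have := h t ht
    omega
  have h5 : ∑ t ∈ B, (A.filter (fun x => t * x ∈ A)).card ≤ A.card * A.card := by
    rw [← Finset.card_sigma, ← Finset.card_product]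
    refine Finset.card_le_card_of_injOn (fun p => (p.2, p.1 * p.2)) ?_ ?_
    · rintro ⟨t, x⟩ hp
      have hp' := Finset.mem_sigma.1 (Finset.mem_coe.1 hp)
      have hp2 := Finset.mem_filter.1 hp'.2
      exact Finset.mem_coe.2 (Finset.mem_product.2 ⟨hp2.1, hp2.2⟩)
    · rintro ⟨t, x⟩ _ ⟨t', x'⟩ _ hh
      simp only [Prod.mk.injEq] at hh
      obtain ⟨rfl, hh⟩ := hh
      have : t = t' := mul_right_cancel hh
      subst this
      rfl
  have h6 : B.card * (6 * A.card) < 7 * ∑ t ∈ B, (A.filter (fun x => t * x ∈ A)).card := by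
    rw [Finset.mul_sum, ← smul_eq_mul, ← Finset.sum_const]
    exact Finset.sum_lt_sum_of_nonempty hB h1
  have hA' := hA.card_pos
  by_contra hcon
  push Not at hcon
  have := Nat.mul_le_mul_right A.card hcon
  nlinarith

theorem prod_of_large {Q : Type*} [Group Q] [Finite Q] [DecidableEq Q] (A B : Finset Q)
    (H : Subgroup Q) (hA : ∀ a ∈ A, a ∈ H) (hB : ∀ b ∈ B, b ∈ H)
    (h : Nat.card H < A.card + B.card) : ∀ x ∈ H, ∃ a ∈ A, ∃ b ∈ B, x = a * b := by
  intro x hx
  by_contra hcon
  push Not at hcon
  have hd : Disjoint (A.image (fun a => a⁻¹ * x)) B := by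
    rw [Finset.disjoint_left]
    intro y hy hyB
    obtain ⟨a, ha, rfl⟩ := Finset.mem_image.1 hy
    exact hcon a ha _ hyB (by simp)
  have h1 : (A.image (fun a => a⁻¹ * x) ∪ B).card = A.card + B.card := by
    rw [Finset.card_union_of_disjoint hd, Finset.card_image_of_injective]
    intro a b hab
    simpa using hab
  have h2 : (A.image (fun a => a⁻¹ * x) ∪ B).card ≤ Nat.card H := by
    have h3 : (((A.image (fun a => a⁻¹ * x) ∪ B : Finset Q) : Set Q)).ncard ≤
        ((H : Set Q)).ncard := by
      refine Set.ncard_le_ncard ?_ (Set.toFinite _)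
      intro y hy
      rcases Finset.mem_union.1 (Finset.mem_coe.1 hy) with hy | hy
      · obtain ⟨a, ha, rfl⟩ := Finset.mem_image.1 hy
        exact H.mul_mem (H.inv_mem (hA a ha)) hx
      · exact hB y hy
    rw [Set.ncard_coe_finset] at h3
    exact h3
  omega

theorem sub_of_small {Q : Type*} [Group Q] [Finite Q] [DecidableEq Q] (X Y Z : Finset Q)
    (hX : 1 ∈ X) (hY : 1 ∈ Y) (hZ : ∀ x ∈ X, ∀ y ∈ Y, x * y ∈ Z)
    (h1 : 2 * Z.card < 3 * X.card) (h2 : 2 * Z.card < 3 * Y.card) :
    ∃ H : Subgroup Q, (∀ x ∈ X, x ∈ H) ∧ (∀ y ∈ Y, y ∈ H) ∧ ∀ h ∈ H, h ∈ Z := by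
  -- many representations
  have r1 : ∀ y ∈ Y, ∀ y' ∈ Y, X.card < 2 * (X.filter (fun x => x * (y * y'⁻¹) ∈ X)).card := by
    intro y hy y' hy'
    have e0 := Finset.card_union_add_card_inter (X.image (fun x => x * y))
      (X.image (fun x => x * y'))
    have e1 : (X.image (fun x => x * y)).card = X.card :=
      Finset.card_image_of_injective _ (mul_left_injective y)
    have e2 : (X.image (fun x => x * y')).card = X.card :=
      Finset.card_image_of_injective _ (mul_left_injective y')
    have e3 : (X.image (fun x => x * y) ∪ X.image (fun x => x * y')).card ≤ Z.card := by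
      refine Finset.card_le_card ?_
      intro z hz
      rcases Finset.mem_union.1 hz with hz | hz
      · obtain ⟨x, hx, rfl⟩ := Finset.mem_image.1 hz
        exact hZ x hx y hy
      · obtain ⟨x, hx, rfl⟩ := Finset.mem_image.1 hz
        exact hZ x hx y' hy'
    have e4 : (X.image (fun x => x * y) ∩ X.image (fun x => x * y')).card ≤
        (X.filter (fun x => x * (y * y'⁻¹) ∈ X)).card := by
      have : X.image (fun x => x * y) ∩ X.image (fun x => x * y') ⊆
          (X.filter (fun x => x * (y * y'⁻¹) ∈ X)).image (fun x => x * y) := by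
        intro z hz
        rw [Finset.mem_inter, Finset.mem_image, Finset.mem_image] at hz
        obtain ⟨⟨x, hx, rfl⟩, x', hx', hxx⟩ := hz
        refine Finset.mem_image_of_mem _ (Finset.mem_filter.2 ⟨hx, ?_⟩)
        have : x * (y * y'⁻¹) = x' := by
          rw [← mul_assoc, ← hxx, mul_assoc, mul_inv_cancel, mul_one]
        rw [this]
        exact hx'
      exact (Finset.card_le_card this).trans Finset.card_image_le
    omega
  have r2 : ∀ x ∈ X, ∀ x' ∈ X, Y.card < 2 * (Y.filter (fun y => x⁻¹ * x' * y ∈ Y)).card := by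
    intro x hx x' hx'
    have e0 := Finset.card_union_add_card_inter (Y.image (fun y => x * y))
      (Y.image (fun y => x' * y))
    have e1 : (Y.image (fun y => x * y)).card = Y.card :=
      Finset.card_image_of_injective _ (mul_right_injective x)
    have e2 : (Y.image (fun y => x' * y)).card = Y.card :=
      Finset.card_image_of_injective _ (mul_right_injective x')
    have e3 : (Y.image (fun y => x * y) ∪ Y.image (fun y => x' * y)).card ≤ Z.card := by
      refine Finset.card_le_card ?_
      intro z hz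
      rcases Finset.mem_union.1 hz with hz | hz
      · obtain ⟨y, hy, rfl⟩ := Finset.mem_image.1 hz
        exact hZ x hx y hy
      · obtain ⟨y, hy, rfl⟩ := Finset.mem_image.1 hz
        exact hZ x' hx' y hy
    have e4 : (Y.image (fun y => x * y) ∩ Y.image (fun y => x' * y)).card ≤
        (Y.filter (fun y => x⁻¹ * x' * y ∈ Y)).card := by
      have : Y.image (fun y => x * y) ∩ Y.image (fun y => x' * y) ⊆
          (Y.filter (fun y => x⁻¹ * x' * y ∈ Y)).image (fun y => x' * y) := by
        intro z hz
        rw [Finset.mem_inter, Finset.mem_image, Finset.mem_image] at hz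
        obtain ⟨⟨y', hy', hyy⟩, y, hy, rfl⟩ := hz
        refine Finset.mem_image_of_mem _ (Finset.mem_filter.2 ⟨hy, ?_⟩)
        have : x⁻¹ * x' * y = y' := by
          rw [mul_assoc, ← hyy, ← mul_assoc, inv_mul_cancel, one_mul]
        rw [this]
        exact hy'
      exact (Finset.card_le_card this).trans Finset.card_image_le
    omega
  -- the same for the elements of `X⁻¹ X`
  have s1 : ∀ h, (∃ x ∈ X, ∃ x' ∈ X, h = x⁻¹ * x') →
      X.card < 2 * (X.filter (fun x => x * h ∈ X)).card := by
    rintro h ⟨x, hx, x', hx', rfl⟩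
    have := r2 x hx x' hx'
    have hne : (Y.filter (fun y => x⁻¹ * x' * y ∈ Y)).Nonempty := by
      rw [← Finset.card_pos]
      omega
    obtain ⟨y, hy⟩ := hne
    rw [Finset.mem_filter] at hy
    have h3 := r1 _ hy.2 y hy.1
    rw [mul_inv_cancel_right] at h3
    exact h3
  let H : Subgroup Q :=
    { carrier := {h | ∃ x ∈ X, ∃ x' ∈ X, h = x⁻¹ * x'}
      one_mem' := ⟨1, hX, 1, hX, by simp⟩
      inv_mem' := by
        rintro h ⟨x, hx, x', hx', rfl⟩
        exact ⟨x', hx', x, hx, by simp⟩
      mul_mem' := by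
        intro a b ha hb
        have ea := s1 a ha
        have eb := s1 b hb
        have e1 : ((X.filter (fun x => x * a ∈ X)).image (fun x => x * a)).card =
            (X.filter (fun x => x * a ∈ X)).card :=
          Finset.card_image_of_injective _ (mul_left_injective a)
        have e2 := Finset.card_union_add_card_inter
          ((X.filter (fun x => x * a ∈ X)).image (fun x => x * a)) (X.filter (fun x => x * b ∈ X))
        have e3 : ((X.filter (fun x => x * a ∈ X)).image (fun x => x * a) ∪
            X.filter (fun x => x * b ∈ X)).card ≤ X.card := by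
          refine Finset.card_le_card ?_
          intro z hz
          rcases Finset.mem_union.1 hz with hz | hz
          · obtain ⟨x, hx, rfl⟩ := Finset.mem_image.1 hz
            exact (Finset.mem_filter.1 hx).2
          · exact (Finset.mem_filter.1 hz).1
        have hne : ((X.filter (fun x => x * a ∈ X)).image (fun x => x * a) ∩
            X.filter (fun x => x * b ∈ X)).Nonempty := by
          rw [← Finset.card_pos]
          omega
        obtain ⟨z, hz⟩ := hne
        rw [Finset.mem_inter, Finset.mem_image, Finset.mem_filter] at hz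
        obtain ⟨⟨x, hx, rfl⟩, -, hz2⟩ := hz
        exact ⟨x, (Finset.mem_filter.1 hx).1, _, hz2, by group⟩ }
  have hH : ∀ h, h ∈ H ↔ ∃ x ∈ X, ∃ x' ∈ X, h = x⁻¹ * x' := fun h => Iff.rfl
  have hXH : ∀ x ∈ X, x ∈ H := fun x hx => ⟨1, hX, x, hx, by simp⟩
  have hYH : ∀ y ∈ Y, y ∈ H := by
    intro y hy
    have h3 := r1 y hy 1 hY
    have hne : (X.filter (fun x => x * (y * 1⁻¹) ∈ X)).Nonempty := by
      rw [← Finset.card_pos]
      omega
    obtain ⟨x, hx⟩ := hne
    rw [Finset.mem_filter] at hx
    exact ⟨x, hx.1, _, hx.2, by simp⟩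
  refine ⟨H, hXH, hYH, ?_⟩
  -- the size of `H`
  obtain ⟨T, hT⟩ : ∃ T : Finset Q, (T : Set Q) = (H : Set Q) :=
    ⟨(Set.toFinite (H : Set Q)).toFinset, by simp⟩
  have hTc : Nat.card H = T.card := by
    have : ((T : Set Q)).ncard = Nat.card H := by rw [hT]; rfl
    rw [← this, Set.ncard_coe_finset]
  have hTm : ∀ h, h ∈ T ↔ h ∈ H := by
    intro h
    rw [← Finset.mem_coe, hT]
    rfl
  have hTne : T.Nonempty := ⟨1, (hTm 1).2 H.one_mem⟩
  have c1 : T.card < 2 * X.card := by
    have e5 : ∑ t ∈ T, (X.filter (fun x => x * t ∈ X)).card ≤ X.card * X.card := by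
      rw [← Finset.card_sigma, ← Finset.card_product]
      refine Finset.card_le_card_of_injOn (fun p => (p.2, p.2 * p.1)) ?_ ?_
      · rintro ⟨t, x⟩ hp
        have hp' := Finset.mem_sigma.1 (Finset.mem_coe.1 hp)
        have hp2 := Finset.mem_filter.1 hp'.2
        exact Finset.mem_coe.2 (Finset.mem_product.2 ⟨hp2.1, hp2.2⟩)
      · rintro ⟨t, x⟩ _ ⟨t', x'⟩ _ hh
        simp only [Prod.mk.injEq] at hh
        obtain ⟨rfl, hh⟩ := hh
        have : t = t' := mul_left_cancel hh
        subst this
        rfl
    have e6 : T.card * X.card < 2 * ∑ t ∈ T, (X.filter (fun x => x * t ∈ X)).card := by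
      rw [Finset.mul_sum, ← smul_eq_mul, ← Finset.sum_const]
      exact Finset.sum_lt_sum_of_nonempty hTne fun t ht => s1 t ((hTm t).1 ht)
    by_contra hcon
    push Not at hcon
    have := Nat.mul_le_mul_right X.card hcon
    nlinarith
  have c2 : T.card < 2 * Y.card := by
    have e5 : ∑ t ∈ T, (Y.filter (fun y => t * y ∈ Y)).card ≤ Y.card * Y.card := by
      rw [← Finset.card_sigma, ← Finset.card_product]
      refine Finset.card_le_card_of_injOn (fun p => (p.2, p.1 * p.2)) ?_ ?_
      · rintro ⟨t, x⟩ hp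
        have hp' := Finset.mem_sigma.1 (Finset.mem_coe.1 hp)
        have hp2 := Finset.mem_filter.1 hp'.2
        exact Finset.mem_coe.2 (Finset.mem_product.2 ⟨hp2.1, hp2.2⟩)
      · rintro ⟨t, x⟩ _ ⟨t', x'⟩ _ hh
        simp only [Prod.mk.injEq] at hh
        obtain ⟨rfl, hh⟩ := hh
        have : t = t' := mul_right_cancel hh
        subst this
        rfl
    have e6 : T.card * Y.card < 2 * ∑ t ∈ T, (Y.filter (fun y => t * y ∈ Y)).card := by
      rw [Finset.mul_sum, ← smul_eq_mul, ← Finset.sum_const]
      refine Finset.sum_lt_sum_of_nonempty hTne fun t ht => ?_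
      obtain ⟨x, hx, x', hx', rfl⟩ := (hH t).1 ((hTm t).1 ht)
      exact r2 x hx x' hx'
    by_contra hcon
    push Not at hcon
    have := Nat.mul_le_mul_right Y.card hcon
    nlinarith
  intro h hh
  obtain ⟨x, hx, y, hy, rfl⟩ := prod_of_large X Y H hXH hYH (by omega) h hh
  exact hZ x hx y hy

end Pool.Agent.PWI
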