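import Pool.Agent.PWK.Val
import Pool.Agent.PWK.Grp

/-!
# PWK: one stage
-/

namespace Pool.Agent.PWI

variable {g n : ℕ} {Q : Type*} [Group Q] [Finite Q]

/-- A value moving the set of values of an interval gives more values for one more handle. -/
theorem stage_grow {P : Subgroup (SG g n)} {ψ : SG g n → Q} (hψ : MulOn P ψ) (T : PMod g n)
    (l q r : ℕ) (hr : r ≤ g) (hqr : q ≤ r)
    (hT : ∀ x ∈ (Wi l r : Subgroup (SG g n)), T.1 x ∈ P) [DecidableEq Q] (t : Q)
    (ht : t ∈ VF ψ T l q)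
    (hc : 8 * (VF ψ T q r).card ≤
      7 * (VF ψ T q r ∪ (VF ψ T q r).image (fun x => t * x)).card) :
    ∃ S : PMod g n, SuppI S l q ∧ l + 1 ≤ q ∧
      8 * (VF ψ T q r).card ≤ 7 * (VF ψ (T * S) (q - 1) r).card := by
  have hpos : 0 < (VF ψ T q r).card := Finset.card_pos.2 ⟨1, one_mem_VF hψ _ _ _⟩
  obtain ⟨v, hv, rfl⟩ := mem_VF.1 ht
  have hv1 : v ≠ 1 := by
    rintro rfl
    rw [map_one, hψ.one] at hc
    simp only [one_mul, Finset.image_id', Finset.union_self] at hc
    omega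
  have hlq : l + 1 ≤ q := by
    rcases hv with rfl | ⟨h, -⟩
    · exact absurd rfl hv1
    · omega
  obtain ⟨q', rfl⟩ : ∃ q', q = q' + 1 := ⟨q - 1, by omega⟩
  obtain ⟨S, hS, e⟩ := Sim_bring (g := g) (n := n) (l := l) (q := q') (by omega) hv hv1
  refine ⟨S, hS, hlq, hc.trans (Nat.mul_le_mul_left 7 (Finset.card_le_card ?_))⟩
  have hTS := comp_mem (hS.mono le_rfl hqr) hT
  rw [Nat.add_sub_cancel]
  have hfix : VF ψ (T * S) (q' + 1) r = VF ψ T (q' + 1) r := VF_fix hS le_rfl
  apply Finset.union_subset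
  · rw [← hfix]
    exact VF_mono hr (by omega) le_rfl
  · intro c hc'
    obtain ⟨x, hx, rfl⟩ := Finset.mem_image.1 hc'
    rw [← hfix] at hx
    have ha : ψ (T.1 v) ∈ VF ψ (T * S) q' (q' + 1) := by
      refine mem_VF.2 ⟨sa q', sa_mem_Sim (Nat.lt_succ_self q'), ?_⟩
      show ψ (T.1 v) = ψ (T.1 (S.1 (sa q')))
      rw [e]
    exact VF_mul hψ (by omega) hqr hr
      (fun y hy => hTS y (Wi_mono (by omega) le_rfl hy)) ha hx

/-- One stage: within `b` handles we find an interval `q, ..., r - 1` whose set of values is almost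
as large as the one of the handles before. -/
theorem stage {P : Subgroup (SG g n)} {ψ : SG g n → Q} (hψ : MulOn P ψ) (T : PMod g n)
    (l r b : ℕ) (hr : r ≤ g) (hlr : l + b ≤ r)
    (hT : ∀ x ∈ (Wi l r : Subgroup (SG g n)), T.1 x ∈ P)
    (hb : 7 ^ (b + 1) * (VF ψ T l r).card < 8 ^ (b + 1)) :
    ∃ (S : PMod g n) (q : ℕ), SuppI S l r ∧ l ≤ q ∧ q ≤ r ∧ r ≤ q + b ∧
      6 * (VF ψ (T * S) l q).card < 7 * (VF ψ (T * S) q r).card := by
  classical
  have main : ∀ (d j : ℕ) (S : PMod g n), SuppI S l r → j + d = b →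
      8 ^ j ≤ 7 ^ j * (VF ψ (T * S) (r - j) r).card →
      ∃ (S : PMod g n) (q : ℕ), SuppI S l r ∧ l ≤ q ∧ q ≤ r ∧ r ≤ q + b ∧
        6 * (VF ψ (T * S) l q).card < 7 * (VF ψ (T * S) q r).card := by
    have step : ∀ (j : ℕ) (S : PMod g n), SuppI S l r → j ≤ b →
        8 ^ j ≤ 7 ^ j * (VF ψ (T * S) (r - j) r).card →
        (∃ (S : PMod g n) (q : ℕ), SuppI S l r ∧ l ≤ q ∧ q ≤ r ∧ r ≤ q + b ∧
          6 * (VF ψ (T * S) l q).card < 7 * (VF ψ (T * S) q r).card) ∨
        ∃ S' : PMod g n, SuppI S' l r ∧ l + (j + 1) ≤ r ∧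
          8 ^ (j + 1) ≤ 7 ^ (j + 1) * (VF ψ (T * S') (r - (j + 1)) r).card := by
      intro j S hS hj hc
      by_cases hst : ∀ t ∈ VF ψ (T * S) l (r - j),
          7 * (VF ψ (T * S) (r - j) r ∪
            (VF ψ (T * S) (r - j) r).image (fun x => t * x)).card <
            8 * (VF ψ (T * S) (r - j) r).card
      · exact Or.inl ⟨S, r - j, hS, by omega, by omega, by omega,
          card_of_stuck _ _ ⟨1, one_mem_VF hψ _ _ _⟩ ⟨1, one_mem_VF hψ _ _ _⟩ hst⟩
      · right
        push Not at hst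
        obtain ⟨t, ht, hct⟩ := hst
        obtain ⟨S2, hS2, h1, h2⟩ := stage_grow hψ (T * S) l (r - j) r hr (by omega)
          (comp_mem hS hT) t ht hct
        refine ⟨S * S2, hS.mul (hS2.mono le_rfl (by omega)), by omega, ?_⟩
        have e1 : r - j - 1 = r - (j + 1) := by omega
        rw [e1, mul_assoc] at h2
        rw [pow_succ, pow_succ]
        calc 8 ^ j * 8 ≤ 7 ^ j * (VF ψ (T * S) (r - j) r).card * 8 :=
              Nat.mul_le_mul_right 8 hc
          _ = 7 ^ j * (8 * (VF ψ (T * S) (r - j) r).card) := by ring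
          _ ≤ 7 ^ j * (7 * (VF ψ (T * (S * S2)) (r - (j + 1)) r).card) :=
              Nat.mul_le_mul_left _ h2
          _ = 7 ^ j * 7 * (VF ψ (T * (S * S2)) (r - (j + 1)) r).card := by ring
    intro d
    induction d with
    | zero =>
      intro j S hS hj hc
      rcases step j S hS (by omega) hc with h | ⟨S', hS', h1, h2⟩
      · exact h
      · exfalso
        have hjb : j = b := by omega
        subst hjb
        have h3 : (VF ψ (T * S') (r - (j + 1)) r).card ≤ (VF ψ T l r).card := by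
          rw [← VF_act (T := T) hS']
          exact Finset.card_le_card (VF_mono hr (by omega) le_rfl)
        have h4 := Nat.mul_le_mul_left (7 ^ (j + 1)) h3
        omega
    | succ d ih =>
      intro j S hS hj hc
      rcases step j S hS (by omega) hc with h | ⟨S', hS', h1, h2⟩
      · exact h
      · exact ih (j + 1) S' hS' (by omega) h2
  refine main b 0 1 (SuppI.one _ _) (by omega) ?_
  have : 0 < (VF ψ (T * 1) (r - 0) r).card := Finset.card_pos.2 ⟨1, one_mem_VF hψ _ _ _⟩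
  simpa using this

end Pool.Agent.PWI
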