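import Pool.Agent.PWK.Four
import Pool.Agent.PWJ.Fin2

/-!
# PWK: passing to a normal subgroup costs the square of the logarithm of the index
-/

namespace Pool.Agent.PWI

variable {g n : ℕ} {Q : Type*} [Group Q] [Finite Q]

/-- Two disjoint intervals on which every element of a subgroup `H` is the value of a simple
curve, and `H` contains all values of the handles before. -/
theorem two_regions {P : Subgroup (SG g n)} {ψ : SG g n → Q} (hψ : MulOn P ψ) (T : PMod g n)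
    (l r0 r1 r2 r3 r4 : ℕ) (hr : r0 ≤ g)
    (hT : ∀ x ∈ (Wi l r0 : Subgroup (SG g n)), T.1 x ∈ P)
    (h : FourGood ψ T l r0 r1 r2 r3 r4) :
    ∃ H : Subgroup Q, (∀ x ∈ VF ψ T l r1, x ∈ H) ∧ (∀ x ∈ H, x ∈ VF ψ T r2 r0) ∧
      ∀ x ∈ H, x ∈ VF ψ T r4 r2 := by
  classical
  obtain ⟨⟨⟨a1, b1, s1⟩, ⟨a2, b2, s2⟩, ⟨a3, b3, s3⟩, ⟨a4, b4, s4⟩⟩, g1, g2, g3, g4⟩ := h
  unfold Good at g1 g2 g3 g4
  -- the subgroup
  obtain ⟨H, hX, hY, hZ⟩ := sub_of_small (VF ψ T l r1) (VF ψ T r1 r0) (VF ψ T l r0)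
    (one_mem_VF hψ _ _ _) (one_mem_VF hψ _ _ _)
    (fun x hx y hy => VF_mul hψ a1 b1 hr hT hx hy)
    (by unfold vc at *; omega) (by unfold vc at *; omega)
  have hHcard : Nat.card H ≤ vc ψ T l r0 := by
    have h1 : (H : Set Q) ⊆ (VF ψ T l r0 : Set Q) := fun x hx => hZ x hx
    have h2 := Set.ncard_le_ncard h1 (Finset.finite_toSet _)
    rw [Set.ncard_coe_finset] at h2
    exact h2
  have sub1 : ∀ x ∈ VF ψ T r2 r1, x ∈ H := fun x hx =>
    hX x (VF_mono (by omega) a2 le_rfl hx)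
  have sub2 : ∀ x ∈ VF ψ T r3 r2, x ∈ H := fun x hx =>
    hX x (VF_mono (by omega) a3 (by omega) hx)
  have sub3 : ∀ x ∈ VF ψ T r4 r3, x ∈ H := fun x hx =>
    hX x (VF_mono (by omega) a4 (by omega) hx)
  refine ⟨H, hX, ?_, ?_⟩
  · intro x hx
    obtain ⟨a, ha, c, hc, rfl⟩ := prod_of_large (VF ψ T r2 r1) (VF ψ T r1 r0) H sub1 hY
      (by unfold vc at *; omega) x hx
    exact VF_mul hψ b2 b1 hr (fun y hy => hT y (Wi_mono (by omega) le_rfl hy)) ha hc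
  · intro x hx
    obtain ⟨a, ha, c, hc, rfl⟩ := prod_of_large (VF ψ T r4 r3) (VF ψ T r3 r2) H sub3 sub2
      (by unfold vc at *; omega) x hx
    exact VF_mul hψ b4 b3 (by omega) (fun y hy => hT y (Wi_mono (by omega) (by omega) hy)) ha hc

private theorem stepN {P : Subgroup (SG g n)} {ψ : SG g n → Q} (hψ : MulOn P ψ) (R m l : ℕ)
    (hm : m ≤ g) (hR : 7 ^ R * Nat.card Q < 8 ^ R) (hl : l + 1 + 2 * R * (R - 1) ≤ m)
    (T : PMod g n) (hT : ∀ k < m, T.1 (sa k) ∈ P ∧ T.1 (sb k) ∈ P)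
    (hN : ∀ k < l, ψ (T.1 (sa k)) = 1 ∧ ψ (T.1 (sb k)) = 1) :
    ∃ T' : PMod g n, (∀ k < m, T'.1 (sa k) ∈ P ∧ T'.1 (sb k) ∈ P) ∧
      ∀ k < l + 1, ψ (T'.1 (sa k)) = 1 ∧ ψ (T'.1 (sb k)) = 1 := by
  classical
  have hTW : ∀ x ∈ (Wi 0 m : Subgroup (SG g n)), T.1 x ∈ P :=
    Wi_map_le T P (fun k _ h => hT k h)
  have hTl : ∀ x ∈ (Wi l m : Subgroup (SG g n)), T.1 x ∈ P := fun x hx =>
    hTW x (Wi_mono (Nat.zero_le l) le_rfl hx)
  have hcard : 7 ^ R * vc ψ T l m < 8 ^ R := by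
    refine lt_of_le_of_lt (Nat.mul_le_mul_left _ ?_) hR
    unfold vc
    have h1 : ((VF ψ T l m : Finset Q) : Set Q) ⊆ Set.univ := Set.subset_univ _
    have h2 := Set.ncard_le_ncard h1 Set.finite_univ
    rw [Set.ncard_coe_finset, Set.ncard_univ] at h2
    exact h2
  obtain ⟨S, r0, r1, r2, r3, r4, hS, h0, h4, hF⟩ := four_good hψ l R T m hm (by omega) hTl hcard
  have hTS := comp_mem hS hTl
  have hF' := hF
  obtain ⟨⟨⟨a1, b1, s1⟩, ⟨a2, b2, s2⟩, ⟨a3, b3, s3⟩, ⟨a4, b4, s4⟩⟩, -⟩ := hF'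
  obtain ⟨H, hH1, hH2, hH3⟩ := two_regions hψ (T * S) l r0 r1 r2 r3 r4 (by omega)
    (fun x hx => hTS x (Wi_mono le_rfl h0 hx)) hF
  -- all handles `l, ..., r1 - 1` have values in `H`
  have hval : ∀ x ∈ (Wi l r1 : Subgroup (SG g n)),
      (T * S).1 x ∈ P ∧ ψ ((T * S).1 x) ∈ H := by
    intro x hx
    unfold Wi at hx
    induction hx using Subgroup.closure_induction with
    | mem x hx =>
      obtain ⟨k, h1, h2, h3⟩ := hx
      rcases h3 with rfl | rfl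
      · refine ⟨hTS _ (sa_mem_Wi h1 (by omega)), hH1 _ (mem_VF.2 ⟨sa k, ?_, rfl⟩)⟩
        exact Sim_left (by omega) h1 (sa_mem_Sim h2)
      · have hb := hTS _ (sb_mem_Wi h1 (by omega : k < m))
        refine ⟨hb, ?_⟩
        have h5 : ψ ((T * S).1 (sb k)⁻¹) ∈ H := hH1 _ (mem_VF.2 ⟨(sb k)⁻¹,
          Sim_left (by omega) h1 (sb_inv_mem_Sim h2 (by omega)), rfl⟩)
        rw [map_inv, hψ.inv hb] at h5
        exact (inv_mem_iff.1 h5)
    | one => rw [map_one, hψ.one]; exact ⟨P.one_mem, H.one_mem⟩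
    | mul x y _ _ hx hy =>
      rw [map_mul, hψ _ hx.1 _ hy.1]
      exact ⟨P.mul_mem hx.1 hy.1, H.mul_mem hx.2 hy.2⟩
    | inv x _ hx =>
      rw [map_inv, hψ.inv hx.1]
      exact ⟨P.inv_mem hx.1, H.inv_mem hx.2⟩
  -- `a_l`
  have hal := hval (sa l) (sa_mem_Wi le_rfl (by omega))
  obtain ⟨v1, hv1, e1⟩ := mem_VF.1 (hH3 _ (H.inv_mem hal.2))
  obtain ⟨S3, hS3, f3⟩ := slideA (g := g) (n := n) (q := l) (r := r2) (by omega)
    (Sim_left (by omega) (by omega : l + 1 ≤ r4) hv1)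
  have h3a : ψ ((T * S * S3).1 (sa l)) = 1 := by
    show ψ ((T * S).1 (S3.1 (sa l))) = 1
    rw [f3, map_mul, hψ _ hal.1 _
      (hTS _ (Wi_mono (by omega) (by omega) (Sim_sub hv1))), ← e1, mul_inv_cancel]
  -- `b_l`
  have hbl := hval (S3.1 (sb l)) (Wi_mono le_rfl (by omega)
    (hS3.2.1 _ (sb_mem_Wi le_rfl (by omega))))
  obtain ⟨v2, hv2, e2⟩ := mem_VF.1 (hH2 _ hbl.2)
  have hv2fix : S3.1 v2 = v2 := hS3.fix (Or.inr le_rfl) (Sim_sub hv2)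
  obtain ⟨S4, hS4, e4, f4⟩ := slideB (g := g) (n := n) (q := l) (r := r0) (by omega)
    (Sim_left (by omega) (by omega : l + 1 ≤ r2) hv2)
  have h4a : ψ ((T * S * S3 * S4).1 (sa l)) = 1 := by
    show ψ ((T * S * S3).1 (S4.1 (sa l))) = 1
    rw [e4]
    exact h3a
  have h4b : ψ ((T * S * S3 * S4).1 (sb l)) = 1 := by
    show ψ ((T * S * S3).1 (S4.1 (sb l))) = 1
    rw [f4, map_mul, map_inv]
    have hv2P : (T * S).1 v2 ∈ P := hTS _ (Wi_mono (by omega) (by omega) (Sim_sub hv2))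
    have e5 : (T * S * S3).1 v2 = (T * S).1 v2 := by
      show (T * S).1 (S3.1 v2) = _
      rw [hv2fix]
    have e6 : (T * S * S3).1 (sb l) = (T * S).1 (S3.1 (sb l)) := rfl
    rw [e5, e6, hψ _ (P.inv_mem hv2P) _ hbl.1, hψ.inv hv2P, ← e2, inv_mul_cancel]
  have hAll : SuppI (S * S3 * S4) l m :=
    (hS.mul (hS3.mono le_rfl (by omega))).mul (hS4.mono le_rfl (by omega))
  refine ⟨T * S * S3 * S4, fun k hk => ?_, fun k hk => ?_⟩
  · have hS' := hAll.mono (Nat.zero_le l) (le_refl m)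
    exact ⟨hTW _ (hS'.2.1 _ (sa_mem_Wi (Nat.zero_le k) hk)),
      hTW _ (hS'.2.1 _ (sb_mem_Wi (Nat.zero_le k) hk))⟩
  · rcases Nat.lt_or_ge k l with h | h
    · have ea := hAll.fix (Or.inl le_rfl) (sa_mem_Wi (Nat.zero_le k) h)
      have eb := hAll.fix (Or.inl le_rfl) (sb_mem_Wi (Nat.zero_le k) h)
      constructor
      · show ψ (T.1 ((S * S3 * S4).1 (sa k))) = 1
        rw [ea]
        exact (hN k h).1
      · show ψ (T.1 ((S * S3 * S4).1 (sb k))) = 1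
        rw [eb]
        exact (hN k h).2
    · have : k = l := by omega
      subst this
      exact ⟨h4a, h4b⟩

/-- A hom from `P` to a finite group of order `< (8 / 7) ^ R` is killed on all but
`2 R (R - 1)` handles. -/
theorem handles_hom {P : Subgroup (SG g n)} {ψ : SG g n → Q} (hψ : MulOn P ψ) (R m : ℕ)
    (hm : m ≤ g) (hR : 7 ^ R * Nat.card Q < 8 ^ R) (h : ContainsHandles P m) :
    ∃ T : PMod g n, ∀ i < m - 2 * R * (R - 1), (T.1 (sa i) ∈ P ∧ T.1 (sb i) ∈ P) ∧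
      ψ (T.1 (sa i)) = 1 ∧ ψ (T.1 (sb i)) = 1 := by
  obtain ⟨T0, hT0⟩ := h
  have claim : ∀ l, l + 2 * R * (R - 1) ≤ m → ∃ T : PMod g n,
      (∀ k < m, T.1 (sa k) ∈ P ∧ T.1 (sb k) ∈ P) ∧
        ∀ k < l, ψ (T.1 (sa k)) = 1 ∧ ψ (T.1 (sb k)) = 1 := by
    intro l
    induction l with
    | zero => exact fun _ => ⟨T0, hT0, fun k hk => absurd hk (Nat.not_lt_zero k)⟩
    | succ l ih =>
      intro hl
      obtain ⟨T, h1, h2⟩ := ih (by omega)
      exact stepN hψ R m l hm hR hl T h1 h2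
  rcases Nat.lt_or_ge m (2 * R * (R - 1)) with h | h
  · refine ⟨1, fun k hk => absurd hk (by omega)⟩
  · obtain ⟨T, h1, h2⟩ := claim (m - 2 * R * (R - 1)) (by omega)
    exact ⟨T, fun i hi => ⟨h1 i (by omega), h2 i hi⟩⟩

end Pool.Agent.PWI
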