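import Pool.Agent.PWJ.Sup

/-!
# PWK: values of simple closed curves in a finite quotient
-/

namespace Pool.Agent.PWI

variable {g n : ℕ} {Q : Type*} [Group Q] [Finite Q]

/-- The values under `ψ ∘ T` of the simple curves of the handles `q, ..., r - 1`. -/
noncomputable def VF (ψ : SG g n → Q) (T : PMod g n) (q r : ℕ) : Finset Q :=
  (Set.toFinite {c : Q | ∃ v ∈ (Sim q r : Set (SG g n)), c = ψ (T.1 v)}).toFinset

theorem mem_VF {ψ : SG g n → Q} {T : PMod g n} {q r : ℕ} {c : Q} :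
    c ∈ VF ψ T q r ↔ ∃ v ∈ (Sim q r : Set (SG g n)), c = ψ (T.1 v) := by
  unfold VF
  rw [Set.Finite.mem_toFinset]
  exact Iff.rfl

/-- `ψ` is multiplicative on `P`. -/
def MulOn (P : Subgroup (SG g n)) (ψ : SG g n → Q) : Prop :=
  ∀ x ∈ P, ∀ y ∈ P, ψ (x * y) = ψ x * ψ y

theorem MulOn.one {P : Subgroup (SG g n)} {ψ : SG g n → Q} (h : MulOn P ψ) : ψ 1 = 1 := by
  have := h 1 P.one_mem 1 P.one_mem
  rw [mul_one] at this
  exact (mul_eq_left.1 this.symm)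

theorem MulOn.inv {P : Subgroup (SG g n)} {ψ : SG g n → Q} (h : MulOn P ψ) {x : SG g n}
    (hx : x ∈ P) : ψ x⁻¹ = (ψ x)⁻¹ := by
  have := h x⁻¹ (P.inv_mem hx) x hx
  rw [inv_mul_cancel, h.one] at this
  exact eq_inv_of_mul_eq_one_left this.symm

/-- A simple curve of an interval followed by one of the next interval is simple. -/
theorem Sim_mul' {l q r : ℕ} (hlq : l ≤ q) (hqr : q ≤ r) (hr : r ≤ g) {t v : SG g n}
    (ht : t ∈ (Sim l q : Set (SG g n))) (hv : v ∈ (Sim q r : Set (SG g n))) :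
    t * v ∈ (Sim l r : Set (SG g n)) := by
  rcases ht with rfl | ⟨h, S, hS, rfl⟩
  · rw [one_mul]
    exact Sim_left hr hlq hv
  · have hfix : S.1 v = v := hS.fix (Or.inr le_rfl) (Sim_sub hv)
    have hv' := Sim_left hr (by omega : l + 1 ≤ q) hv
    have hm : (sa l : SG g n) * v ∈ (Sim l r : Set (SG g n)) :=
      Sim_mul (by omega) hr (sa_mem_Sim (Nat.lt_succ_self l)) hv'
    rcases hm with h1 | ⟨h1, S', hS', e⟩
    · -- the curve cannot be trivial, but this is not needed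
      have : S.1 (sa l) * v = 1 := by
        have h2 : S.1 (sa l * v) = 1 := by rw [h1, map_one]
        rw [map_mul, hfix] at h2
        exact h2
      rw [this]
      exact one_mem_Sim _ _
    · refine Or.inr ⟨h1, S * S', (hS.mono le_rfl hqr).mul hS', ?_⟩
      show S.1 (sa l) * v = S.1 (S'.1 (sa l))
      rw [← e, map_mul, hfix]

/-- Mapping classes supported on an interval preserve its simple curves. -/
theorem Sim_act {q r : ℕ} {S : PMod g n} (hS : SuppI S q r) {v : SG g n}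
    (hv : v ∈ (Sim q r : Set (SG g n))) : S.1 v ∈ (Sim q r : Set (SG g n)) := by
  rcases hv with rfl | ⟨h, S', hS', rfl⟩
  · rw [map_one]; exact one_mem_Sim _ _
  · exact Or.inr ⟨h, S * S', hS.mul hS', rfl⟩

/-- A nontrivial simple curve of `l, ..., q` is `a_q` for another marking. -/
theorem Sim_bring {l q : ℕ} (hq : q < g) {v : SG g n}
    (hv : v ∈ (Sim l (q + 1) : Set (SG g n))) (hv1 : v ≠ 1) :
    ∃ S : PMod g n, SuppI S l (q + 1) ∧ S.1 (sa q) = v := by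
  rcases hv with rfl | ⟨h, S, hS, rfl⟩
  · exact absurd rfl hv1
  · obtain ⟨R, hR, e, -⟩ := bring (g := g) (n := n) l q (by omega) hq
    refine ⟨S * R, hS.mul hR, ?_⟩
    show S.1 (R.1 (sa q)) = S.1 (sa l)
    rw [e]

theorem one_mem_VF {P : Subgroup (SG g n)} {ψ : SG g n → Q} (h : MulOn P ψ) (T : PMod g n)
    (q r : ℕ) : (1 : Q) ∈ VF ψ T q r :=
  mem_VF.2 ⟨1, one_mem_Sim _ _, by rw [map_one, h.one]⟩

theorem VF_mono {ψ : SG g n → Q} {T : PMod g n} {q q' r r' : ℕ} (hr' : r' ≤ g) (hq : q' ≤ q)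
    (hr : r ≤ r') : VF ψ T q r ⊆ VF ψ T q' r' := by
  intro c hc
  obtain ⟨v, hv, rfl⟩ := mem_VF.1 hc
  exact mem_VF.2 ⟨v, Sim_left hr' hq (Sim_right hr hv), rfl⟩

theorem VF_mul {P : Subgroup (SG g n)} {ψ : SG g n → Q} (h : MulOn P ψ) {T : PMod g n}
    {l q r : ℕ} (hlq : l ≤ q) (hqr : q ≤ r) (hr : r ≤ g)
    (hT : ∀ x ∈ (Wi l r : Subgroup (SG g n)), T.1 x ∈ P) {s t : Q}
    (hs : s ∈ VF ψ T l q) (ht : t ∈ VF ψ T q r) : s * t ∈ VF ψ T l r := by
  obtain ⟨u, hu, rfl⟩ := mem_VF.1 hs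
  obtain ⟨v, hv, rfl⟩ := mem_VF.1 ht
  refine mem_VF.2 ⟨u * v, Sim_mul' hlq hqr hr hu hv, ?_⟩
  rw [map_mul, h _ (hT _ (Wi_mono le_rfl hqr (Sim_sub hu))) _
    (hT _ (Wi_mono hlq le_rfl (Sim_sub hv)))]

/-- Changing the marking on an interval does not change its values. -/
theorem VF_act {ψ : SG g n → Q} {T S : PMod g n} {q r : ℕ} (hS : SuppI S q r) :
    VF ψ (T * S) q r = VF ψ T q r := by
  ext c
  rw [mem_VF, mem_VF]
  constructor
  · rintro ⟨v, hv, rfl⟩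
    exact ⟨S.1 v, Sim_act hS hv, rfl⟩
  · rintro ⟨v, hv, rfl⟩
    refine ⟨(S⁻¹).1 v, Sim_act hS.inv hv, ?_⟩
    show ψ (T.1 v) = ψ (T.1 (S.1 ((S⁻¹).1 v)))
    have : S.1 ((S⁻¹).1 v) = v := by
      show S.1 ((S.1)⁻¹ v) = v
      simp
    rw [this]

/-- Changing the marking on a disjoint interval does not change the values. -/
theorem VF_fix {ψ : SG g n → Q} {T S : PMod g n} {l q q' r : ℕ} (hS : SuppI S l q)
    (h : q ≤ q') : VF ψ (T * S) q' r = VF ψ T q' r := by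
  ext c
  rw [mem_VF, mem_VF]
  have e : ∀ v ∈ (Sim q' r : Set (SG g n)), (T * S).1 v = T.1 v := by
    intro v hv
    show T.1 (S.1 v) = T.1 v
    rw [hS.fix (Or.inr h) (Sim_sub hv)]
  constructor
  · rintro ⟨v, hv, rfl⟩
    exact ⟨v, hv, by rw [e v hv]⟩
  · rintro ⟨v, hv, rfl⟩
    exact ⟨v, hv, by rw [e v hv]⟩

theorem comp_mem {P : Subgroup (SG g n)} {T S : PMod g n} {l r : ℕ} (hS : SuppI S l r)
    (hT : ∀ x ∈ (Wi l r : Subgroup (SG g n)), T.1 x ∈ P) :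
    ∀ x ∈ (Wi l r : Subgroup (SG g n)), (T * S).1 x ∈ P :=
  fun x hx => hT _ (hS.2.1 x hx)

end Pool.Agent.PWI
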